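import Pool.Agent.T9h42.GF.Spec3

/-!
# The count theorem from the core estimate
-/

set_option autoImplicit false
set_option linter.unusedSectionVars false

namespace Pool.Agent.T9h71.GF

open Polynomial Finset H39Gon Pool.Agent.T9h42.GF

/-! ### conditional expectations -/

section prob

variable {ι : Type} [Fintype ι] [DecidableEq ι] {Ω : ι → Type} [∀ i, Fintype (Ω i)]

theorem mix_mix (S : Finset ι) (z y : ∀ i, Ω i) : mix S (mix S z y) (mix S y z) = z := by
  funext i; unfold mix; split_ifs <;> rfl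

theorem sum_mix (S : Finset ι) (F : (∀ i, Ω i) → ℝ) :
    ∑ z, ∑ y, F (mix S z y) = Fintype.card (∀ i, Ω i) * ∑ w, F w := by
  let e : (∀ i, Ω i) × (∀ i, Ω i) ≃ (∀ i, Ω i) × (∀ i, Ω i) :=
    ⟨fun p => (mix S p.1 p.2, mix S p.2 p.1), fun p => (mix S p.1 p.2, mix S p.2 p.1),
      fun p => by simp only [mix_mix], fun p => by simp only [mix_mix]⟩
  have h1 : ∑ z, ∑ y, F (mix S z y) = ∑ p : (∀ i, Ω i) × (∀ i, Ω i), F (e p).1 := by
    rw [Fintype.sum_prod_type]
    rfl
  rw [h1, e.sum_comp (fun p => F p.1), Fintype.sum_prod_type, Finset.mul_sum]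
  refine Finset.sum_congr rfl fun w _ => ?_
  show ∑ _y : (∀ i, Ω i), F w = _
  rw [Finset.sum_const, nsmul_eq_mul, Finset.card_univ]

theorem av_ce [∀ i, Nonempty (Ω i)] (S : Finset ι) (F : (∀ i, Ω i) → ℝ) : av (ce S F) = av F := by
  have hc : (Fintype.card (∀ i, Ω i) : ℝ) ≠ 0 := by exact_mod_cast Fintype.card_ne_zero
  unfold ce
  unfold av
  rw [← Finset.sum_div, sum_mix]
  field_simp

theorem mix_tower {T S : Finset ι} (h : T ⊆ S) (x z y : ∀ i, Ω i) :
    mix S (mix T x z) y = mix T x (mix S z y) := by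
  funext i; unfold mix
  by_cases h1 : i ∈ T
  · simp [h1, h h1]
  · by_cases h2 : i ∈ S <;> simp [h1, h2]

theorem ce_tower [∀ i, Nonempty (Ω i)] {T S : Finset ι} (h : T ⊆ S) (f : (∀ i, Ω i) → ℝ) :
    ce T (ce S f) = ce T f := by
  funext x
  have h1 := av_ce S (fun w => f (mix T x w))
  unfold ce at h1 ⊢
  simp only [mix_tower h]
  exact h1

theorem av_mono {f g : (∀ i, Ω i) → ℝ} (h : ∀ x, f x ≤ g x) : av f ≤ av g := by
  unfold av
  exact div_le_div_of_nonneg_right (Finset.sum_le_sum fun x _ => h x) (Nat.cast_nonneg _)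

theorem av_sub_one [∀ i, Nonempty (Ω i)] (f : (∀ i, Ω i) → ℝ) : av (fun x => f x - 1) = av f - 1 := by
  have hc : (Fintype.card (∀ i, Ω i) : ℝ) ≠ 0 := by exact_mod_cast Fintype.card_ne_zero
  unfold av
  rw [Finset.sum_sub_distrib, Finset.sum_const, nsmul_eq_mul, Finset.card_univ, mul_one, sub_div,
    div_self hc]

theorem abs_av (f : (∀ i, Ω i) → ℝ) : |av f| ≤ av (fun x => |f x|) := by
  unfold av
  rw [abs_div, abs_of_nonneg (Nat.cast_nonneg (α := ℝ) _)]
  exact div_le_div_of_nonneg_right (Finset.abs_sum_le_sum_abs _ _) (Nat.cast_nonneg _)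

theorem av_ce_mono [∀ i, Nonempty (Ω i)] {T S : Finset ι} (h : T ⊆ S) (f : (∀ i, Ω i) → ℝ) :
    av (fun x => |ce T f x - 1|) ≤ av (fun x => |ce S f x - 1|) := by
  rw [← av_ce T (fun x => |ce S f x - 1|)]
  refine av_mono fun x => ?_
  have h1 : ce T f x - 1 = ce T (fun x => ce S f x - 1) x := by
    conv_lhs => rw [← ce_tower h]
    unfold ce
    exact (av_sub_one _).symm
  rw [h1]
  exact abs_av _

variable {Z1 Z2 : Type} [Fintype Z1] [Fintype Z2]

theorem ce_block [Nonempty Z1] (Φ : Z1 × Z2 ≃ ∀ i, Ω i) (T : Finset ι)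
    (hΦ : ∀ a b a' b', mix T (Φ (a, b)) (Φ (a', b')) = Φ (a, b')) (f : (∀ i, Ω i) → ℝ) (a : Z1)
    (b : Z2) : ce T f (Φ (a, b)) = (∑ b', f (Φ (a, b'))) / Fintype.card Z2 := by
  have hc : (Fintype.card Z1 : ℝ) ≠ 0 := by exact_mod_cast Fintype.card_ne_zero
  unfold ce av
  rw [← Φ.sum_comp, Fintype.sum_prod_type]
  simp only [hΦ]
  rw [Finset.sum_const, nsmul_eq_mul, Finset.card_univ, ← Fintype.card_congr Φ, Fintype.card_prod,
    Nat.cast_mul, mul_div_mul_left _ _ hc]

theorem av_block [Nonempty Z2] (Φ : Z1 × Z2 ≃ ∀ i, Ω i) (f : (∀ i, Ω i) → ℝ) (g : Z1 → ℝ)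
    (hf : ∀ a b, f (Φ (a, b)) = g a) : av f = (∑ a, g a) / Fintype.card Z1 := by
  have hc : (Fintype.card Z2 : ℝ) ≠ 0 := by exact_mod_cast Fintype.card_ne_zero
  unfold av
  rw [← Φ.sum_comp, Fintype.sum_prod_type]
  simp only [hf, Finset.sum_const, nsmul_eq_mul]
  rw [← Finset.mul_sum, Finset.card_univ, ← Fintype.card_congr Φ, Fintype.card_prod,
    Nat.cast_mul, mul_comm (Fintype.card Z1 : ℝ), mul_div_mul_left _ _ hc]

end prob

/-! ### sums over functions with values in a finite set -/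

theorem sum_pi {A : Type} [DecidableEq A] (X : Finset A) (n : ℕ) (g : (Fin n → A) → ℝ) :
    ∑ u ∈ Fintype.piFinset (fun _ : Fin n => X), g u =
      ∑ u : Fin n → {x // x ∈ X}, g (fun i => (u i).1) := by
  symm
  refine Finset.sum_bij (fun u _ => fun i => (u i).1) ?_ ?_ ?_ ?_
  · intro u _
    exact Fintype.mem_piFinset.2 fun i => (u i).2
  · intro u _ v _ h
    funext i
    exact Subtype.ext (congrFun h i)
  · intro b hb
    exact ⟨fun i => ⟨b i, Fintype.mem_piFinset.1 hb i⟩, Finset.mem_univ _, rfl⟩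
  · intro u _
    rfl

theorem exists_split {A : Type} [Fintype A] [DecidableEq A] (P : Finset A) {a b : ℕ}
    (hP : P.card = a) (hA : Fintype.card A = a + b) :
    ∃ e : A ≃ Fin a ⊕ Fin b, ∀ i, i ∈ P ↔ ∃ l, e i = Sum.inl l := by
  have h1 : Fintype.card {x // x ∈ P} = a := by rw [Fintype.card_coe, hP]
  have h2 : Fintype.card {x // x ∉ P} = b := by
    rw [Fintype.card_subtype_compl, Fintype.card_coe, hP, hA]; omega
  let e : A ≃ Fin a ⊕ Fin b := (Equiv.sumCompl (fun x => x ∈ P)).symm.trans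
    (Equiv.sumCongr (Fintype.equivFinOfCardEq h1) (Fintype.equivFinOfCardEq h2))
  refine ⟨e, fun i => ?_⟩
  constructor
  · intro hi
    refine ⟨Fintype.equivFinOfCardEq h1 ⟨i, hi⟩, ?_⟩
    show (Equiv.sumCongr _ _) ((Equiv.sumCompl (fun x => x ∈ P)).symm i) = _
    rw [Equiv.sumCompl_symm_apply_of_pos hi]
    rfl
  · rintro ⟨l, hl⟩
    by_contra hi
    have h3 : e i = Sum.inr (Fintype.equivFinOfCardEq h2 ⟨i, hi⟩) := by
      show (Equiv.sumCongr _ _) ((Equiv.sumCompl (fun x => x ∈ P)).symm i) = _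
      rw [Equiv.sumCompl_symm_apply_of_neg hi]
      rfl
    rw [h3] at hl
    cases hl

/-! ### the slots -/

section slots

variable {k : Type} [Field k] [Fintype k] (K : ℕ → Finset k[X]) {N s a b n : ℕ} (d e L : ℕ)

/-- the assignments, in two blocks: the fixed slots and the free slots -/
abbrev Z1 (a b : ℕ) : Type :=
  {x // x ∈ K L} × (Fin a → {x // x ∈ K d}) × (Fin b → {x // x ∈ K e})

/-- the free slots -/
abbrev Z2 (n : ℕ) : Type := (Fin n → {x // x ∈ K d}) × {x // x ∈ K e}

/-- from blocks to assignments -/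
def Dd (e1 : Fin N ≃ Fin a ⊕ Fin n) (e2 : Fin s ≃ Fin b ⊕ Unit) :
    Z1 K d e L a b × Z2 K d e n → ∀ i, Pt K N s d e L i
  | z, none => z.1.1
  | z, some (Sum.inl i) => Sum.elim z.1.2.1 z.2.1 (e1 i)
  | z, some (Sum.inr j) => Sum.elim z.1.2.2 (fun _ => z.2.2) (e2 j)

/-- from assignments to blocks -/
def Ee (e1 : Fin N ≃ Fin a ⊕ Fin n) (e2 : Fin s ≃ Fin b ⊕ Unit)
    (x : ∀ i, Pt K N s d e L i) : Z1 K d e L a b × Z2 K d e n :=
  ((x none, fun l => x (some (Sum.inl (e1.symm (Sum.inl l)))),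
    fun l => x (some (Sum.inr (e2.symm (Sum.inl l))))),
    (fun l => x (some (Sum.inl (e1.symm (Sum.inr l)))), x (some (Sum.inr (e2.symm (Sum.inr ()))))))

/-- the equivalence -/
def Ph (e1 : Fin N ≃ Fin a ⊕ Fin n) (e2 : Fin s ≃ Fin b ⊕ Unit) :
    Z1 K d e L a b × Z2 K d e n ≃ ∀ i, Pt K N s d e L i where
  toFun := Dd K d e L e1 e2
  invFun := Ee K d e L e1 e2
  left_inv z := by
    obtain ⟨⟨c, u, t⟩, v, y⟩ := z
    refine Prod.ext (Prod.ext rfl (Prod.ext ?_ ?_)) (Prod.ext ?_ ?_)
    · funext l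
      show Sum.elim u v (e1 (e1.symm (Sum.inl l))) = u l
      rw [Equiv.apply_symm_apply]; rfl
    · funext l
      show Sum.elim t (fun _ => y) (e2 (e2.symm (Sum.inl l))) = t l
      rw [Equiv.apply_symm_apply]; rfl
    · funext l
      show Sum.elim u v (e1 (e1.symm (Sum.inr l))) = v l
      rw [Equiv.apply_symm_apply]; rfl
    · show Sum.elim t (fun _ => y) (e2 (e2.symm (Sum.inr ()))) = y
      rw [Equiv.apply_symm_apply]; rfl
  right_inv x := by
    funext i
    rcases i with _ | i | j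
    · rfl
    · show Sum.elim (fun l => x (some (Sum.inl (e1.symm (Sum.inl l)))))
        (fun l => x (some (Sum.inl (e1.symm (Sum.inr l))))) (e1 i) = x (some (Sum.inl i))
      rcases h : e1 i with l | l
      · have : i = e1.symm (Sum.inl l) := by rw [← h, Equiv.symm_apply_apply]
        subst this; rfl
      · have : i = e1.symm (Sum.inr l) := by rw [← h, Equiv.symm_apply_apply]
        subst this; rfl
    · show Sum.elim (fun l => x (some (Sum.inr (e2.symm (Sum.inl l)))))
        (fun _ => x (some (Sum.inr (e2.symm (Sum.inr ()))))) (e2 j) = x (some (Sum.inr j))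
      rcases h : e2 j with l | l
      · have : j = e2.symm (Sum.inl l) := by rw [← h, Equiv.symm_apply_apply]
        subst this; rfl
      · have : j = e2.symm (Sum.inr ()) := by rw [← h, Equiv.symm_apply_apply]
        subst this; rfl

theorem mix_Ph (e1 : Fin N ≃ Fin a ⊕ Fin n) (e2 : Fin s ≃ Fin b ⊕ Unit) (T : Finset (Ix N s))
    (h0 : none ∈ T) (h1 : ∀ i, some (Sum.inl i) ∈ T ↔ ∃ l, e1 i = Sum.inl l)
    (h2 : ∀ j, some (Sum.inr j) ∈ T ↔ ∃ l, e2 j = Sum.inl l)
    (z : Z1 K d e L a b) (y : Z2 K d e n) (z' : Z1 K d e L a b) (y' : Z2 K d e n) :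
    mix T (Ph K d e L e1 e2 (z, y)) (Ph K d e L e1 e2 (z', y')) = Ph K d e L e1 e2 (z, y') := by
  funext i
  unfold mix
  rcases i with _ | i | j
  · rw [if_pos h0]; rfl
  · show (if _ then Sum.elim z.2.1 y.1 (e1 i) else Sum.elim z'.2.1 y'.1 (e1 i)) =
      Sum.elim z.2.1 y'.1 (e1 i)
    have h3 := h1 i
    rcases h : e1 i with l | l
    · rw [if_pos (h3.2 ⟨l, h⟩)]; rfl
    · rw [if_neg (fun h4 => by obtain ⟨l', h5⟩ := h3.1 h4; rw [h] at h5; cases h5)]; rfl
  · show (if _ then Sum.elim z.2.2 (fun _ => y.2) (e2 j) else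
      Sum.elim z'.2.2 (fun _ => y'.2) (e2 j)) = Sum.elim z.2.2 (fun _ => y'.2) (e2 j)
    have h3 := h2 j
    rcases h : e2 j with l | l
    · rw [if_pos (h3.2 ⟨l, h⟩)]; rfl
    · rw [if_neg (fun h4 => by obtain ⟨l', h5⟩ := h3.1 h4; rw [h] at h5; cases h5)]; rfl

theorem Wf_Ph (α β : k[X]) (e1 : Fin N ≃ Fin a ⊕ Fin n) (e2 : Fin s ≃ Fin b ⊕ Unit)
    (z : Z1 K d e L a b) (y : Z2 K d e n) :
    Wf K α β N s d e L (Ph K d e L e1 e2 (z, y)) =
      (K L).card * (open Classical in if (α * ∏ i, (z.2.1 i).1) * ∏ i, (y.1 i).1 +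
        β * ((∏ i, (z.2.2 i).1) * y.2.1) = z.1.1 then (1 : ℝ) else 0) := by
  classical
  have p1 : ∏ i, (Ph K d e L e1 e2 (z, y) (some (Sum.inl i))).1 =
      (∏ i, (z.2.1 i).1) * ∏ i, (y.1 i).1 := by
    show ∏ i, (Sum.elim z.2.1 y.1 (e1 i)).1 = _
    rw [e1.prod_comp (fun l => (Sum.elim z.2.1 y.1 l).1), Fintype.prod_sum_type]
    rfl
  have p2 : ∏ j, (Ph K d e L e1 e2 (z, y) (some (Sum.inr j))).1 =
      (∏ i, (z.2.2 i).1) * y.2.1 := by
    show ∏ j, (Sum.elim z.2.2 (fun _ => y.2) (e2 j)).1 = _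
    rw [e2.prod_comp (fun l => (Sum.elim z.2.2 (fun _ => y.2) l).1), Fintype.prod_sum_type]
    simp
  unfold Wf
  rw [p1, p2]
  have p3 : ((Ph K d e L e1 e2 (z, y) none).1 : k[X]) = z.1.1 := rfl
  rw [p3, ← mul_assoc α]
  split_ifs <;> simp

/-- the normalised count as a sum over the free slots -/
theorem wn_eq (α β c : k[X]) (u : Fin a → {x // x ∈ K d}) (t : Fin b → {x // x ∈ K e}) :
    wn (K L) (K d) (K e) n β (α * ∏ i, (u i).1) (∏ i, (t i).1) c =
      (∑ y : Z2 K d e n, (K L).card * (open Classical in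
        if (α * ∏ i, (u i).1) * ∏ i, (y.1 i).1 + β * ((∏ i, (t i).1) * y.2.1) = c
        then (1 : ℝ) else 0)) / Fintype.card (Z2 K d e n) := by
  classical
  unfold wn
  rw [Finset.natCast_card_filter, Finset.sum_product, sum_pi, ← Finset.mul_sum,
    Fintype.sum_prod_type, Fintype.card_prod, Fintype.card_fun, Fintype.card_fin,
    Fintype.card_coe, Fintype.card_coe]
  push_cast
  congr 2
  refine Finset.sum_congr rfl fun v _ => ?_
  rw [← Finset.sum_coe_sort]

end slots

/-- PIECE `CountOfCore` -/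
theorem countOfCore : CountOfCore := by
  classical
  intro hB hC k _ _ r ε hr hε
  obtain ⟨w, hw⟩ := hC k r ε hr hε
  refine ⟨w, ?_⟩
  intro α β hα hβ hαβ hπ j hj
  obtain ⟨d₀, hd₀⟩ := hw α β hα hβ hαβ hπ j hj
  refine ⟨max d₀ j, fun d hd K hK => ?_⟩
  have hdj : j ≤ (2 * r + 2) * d := by
    have : j ≤ d := (le_max_right _ _).trans hd
    nlinarith
  set N := 2 * r * (2 * r + 2) with hN
  set s := 2 * r with hs
  set e := (s + 2) * d - j with he
  set L := α.natDegree + s * (s + 2) * d with hL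
  obtain ⟨hX, hY, hCc, hsum⟩ := hd₀ d ((le_max_left _ _).trans hd) (K d) (K e) (K L)
    (by rw [hK]) (by rw [hK]) (by rw [hK])
  have hne : ∀ i, Nonempty (Pt K N s d e L i) := by
    intro i
    rcases i with _ | i | i
    · obtain ⟨x, hx⟩ := Finset.card_pos.1 hCc
      exact ⟨⟨x, hx⟩⟩
    · obtain ⟨x, hx⟩ := Finset.card_pos.1 hX
      exact ⟨⟨x, hx⟩⟩
    · obtain ⟨x, hx⟩ := Finset.card_pos.1 hY
      exact ⟨⟨x, hx⟩⟩
  refine ⟨hne, ?_⟩
  have := hne
  intro U hU
  by_cases h0 : none ∈ U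
  · -- `none ∈ U`
    set P : Finset (Fin N) := univ.filter (fun i => some (Sum.inl i) ∈ U) with hP
    set R : Finset (Fin s) := univ.filter (fun i => some (Sum.inr i) ∈ U) with hR
    have hcard : 1 + P.card + R.card ≤ 2 * r := by
      have h1 : ({none} ∪ (P.image (fun i => (some (Sum.inl i) : Ix N s))) ∪
          (R.image (fun i => (some (Sum.inr i) : Ix N s)))) ⊆ U := by
        intro x hx
        rcases Finset.mem_union.1 hx with hx | hx
        · rcases Finset.mem_union.1 hx with hx | hx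
          · rw [Finset.mem_singleton.1 hx]; exact h0
          · obtain ⟨i, hi, rfl⟩ := Finset.mem_image.1 hx
            exact (Finset.mem_filter.1 hi).2
        · obtain ⟨i, hi, rfl⟩ := Finset.mem_image.1 hx
          exact (Finset.mem_filter.1 hi).2
      have h2 := (Finset.card_le_card h1).trans hU
      rw [Finset.card_union_of_disjoint, Finset.card_union_of_disjoint,
        Finset.card_image_of_injective, Finset.card_image_of_injective, Finset.card_singleton] at h2
      · exact h2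
      · intro x y h; simpa using h
      · intro x y h; simpa using h
      · simp [Finset.disjoint_left]
      · rw [Finset.disjoint_left]
        intro x hx hx'
        obtain ⟨i, _, rfl⟩ := Finset.mem_image.1 hx'
        simp at hx
    obtain ⟨P', hP1, _, hP2⟩ := Finset.exists_subsuperset_card_eq (Finset.subset_univ P)
      (show P.card ≤ 2 * r by omega) (by
        rw [Finset.card_univ, Fintype.card_fin, hN]; nlinarith)
    obtain ⟨R', hR1, _, hR2⟩ := Finset.exists_subsuperset_card_eq (Finset.subset_univ R)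
      (show R.card ≤ 2 * r - 1 by omega) (by
        rw [Finset.card_univ, Fintype.card_fin, hs]; omega)
    obtain ⟨e1, he1⟩ := exists_split P' (a := 2 * r) (b := 2 * r * (2 * r + 1)) hP2 (by
      rw [Fintype.card_fin, hN]; ring)
    obtain ⟨e2', he2'⟩ := exists_split R' (a := 2 * r - 1) (b := 1) hR2 (by
      rw [Fintype.card_fin, hs]; omega)
    set e2 : Fin s ≃ Fin (2 * r - 1) ⊕ Unit := e2'.trans
      (Equiv.sumCongr (Equiv.refl _) (Equiv.ofUnique (Fin 1) Unit)) with he2d
    have he2 : ∀ i, i ∈ R' ↔ ∃ l, e2 i = Sum.inl l := by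
      intro i
      rw [he2' i]
      constructor
      · rintro ⟨l, hl⟩
        exact ⟨l, by rw [he2d, Equiv.trans_apply, hl]; rfl⟩
      · rintro ⟨l, hl⟩
        rcases h : e2' i with l' | l'
        · exact ⟨l', rfl⟩
        · rw [he2d, Equiv.trans_apply, h] at hl
          cases hl
    set T : Finset (Ix N s) := {none} ∪ (P'.image (fun i => (some (Sum.inl i) : Ix N s))) ∪
      (R'.image (fun i => (some (Sum.inr i) : Ix N s))) with hT
    have hUT : U ⊆ T := by
      intro x hx
      rw [hT]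
      rcases x with _ | i | i
      · simp
      · simp only [Finset.mem_union, Finset.mem_image]
        exact Or.inl (Or.inr ⟨i, hP1 (Finset.mem_filter.2 ⟨Finset.mem_univ _, hx⟩), rfl⟩)
      · simp only [Finset.mem_union, Finset.mem_image]
        exact Or.inr ⟨i, hR1 (Finset.mem_filter.2 ⟨Finset.mem_univ _, hx⟩), rfl⟩
    refine (av_ce_mono hUT _).trans ?_
    have t0 : none ∈ T := by rw [hT]; simp
    have t1 : ∀ i, some (Sum.inl i) ∈ T ↔ ∃ l, e1 i = Sum.inl l := by
      intro i
      rw [← he1 i, hT]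
      simp
    have t2 : ∀ i, some (Sum.inr i) ∈ T ↔ ∃ l, e2 i = Sum.inl l := by
      intro i
      rw [← he2 i, hT]
      simp
    have i1 : Nonempty {x // x ∈ K L} := hne none
    obtain ⟨x0, hx0⟩ := Finset.card_pos.1 hX
    obtain ⟨y0, hy0⟩ := Finset.card_pos.1 hY
    have i2 : Nonempty {x // x ∈ K d} := ⟨⟨x0, hx0⟩⟩
    have i3 : Nonempty {x // x ∈ K e} := ⟨⟨y0, hy0⟩⟩
    rw [av_block (Ph K d e L e1 e2) _
      (fun z : Z1 K d e L (2 * r) (2 * r - 1) => |wn (K L) (K d) (K e) (2 * r * (2 * r + 1)) β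
        (α * ∏ i, (z.2.1 i).1) (∏ i, (z.2.2 i).1) z.1.1 - 1|) (fun z y => by
        rw [ce_block (Ph K d e L e1 e2) T (fun z y z' y' => mix_Ph K d e L e1 e2 T t0 t1 t2 z y z' y'),
          wn_eq]
        simp only [Wf_Ph])]
    have hcd : (Fintype.card (Z1 K d e L (2 * r) (2 * r - 1)) : ℝ) =
        (K L).card * ((K d).card ^ (2 * r) * (K e).card ^ (2 * r - 1)) := by
      rw [Fintype.card_prod, Fintype.card_prod, Fintype.card_fun, Fintype.card_fun,
        Fintype.card_fin, Fintype.card_fin, Fintype.card_coe, Fintype.card_coe, Fintype.card_coe]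
      push_cast
      rfl
    have hpos : (0 : ℝ) < Fintype.card (Z1 K d e L (2 * r) (2 * r - 1)) := by
      exact_mod_cast Fintype.card_pos
    rw [div_le_iff₀ hpos, hcd]
    refine le_trans (le_of_eq ?_) (hsum.trans (le_of_eq ?_))
    · rw [sum_pi, Fintype.sum_prod_type, Finset.sum_comm]
      rw [Fintype.sum_prod_type]
      refine Finset.sum_congr rfl fun u _ => ?_
      rw [sum_pi]
      refine Finset.sum_congr rfl fun t _ => ?_
      rw [← Finset.sum_coe_sort (K L)]
    · ring
  · -- `none ∉ U`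
    set S : Finset (Ix N s) := univ.erase none with hS
    have hUS : U ⊆ S := by
      intro x hx
      rw [hS, Finset.mem_erase]
      exact ⟨fun h => h0 (h ▸ hx), Finset.mem_univ _⟩
    refine (av_ce_mono hUS _).trans ?_
    have hM : ∀ (D : ℕ) (x : k[X]), x ∈ K D ↔ x.Monic ∧ x.natDegree = D ∧
        IsCoprime x (α * β) := by
      intro D x
      rw [hK]
      exact (hB k).2.2.1 _ _ _
    have key : ∀ x : (∀ i, Pt K N s d e L i), ce S (Wf K α β N s d e L) x = 1 := by
      intro x
      set a := ∏ i, (x (some (Sum.inl i))).1 with ha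
      set b := ∏ i, (x (some (Sum.inr i))).1 with hb
      have hx1 : ∀ i, (x (some (Sum.inl i))).1.Monic ∧ (x (some (Sum.inl i))).1.natDegree = d ∧
          IsCoprime (x (some (Sum.inl i))).1 (α * β) := by
        intro i
        have h1 : (x (some (Sum.inl i))).1 ∈ K d := (x (some (Sum.inl i))).2
        exact (hM _ _).1 h1
      have hx2 : ∀ i, (x (some (Sum.inr i))).1.Monic ∧ (x (some (Sum.inr i))).1.natDegree = e ∧
          IsCoprime (x (some (Sum.inr i))).1 (α * β) := by
        intro i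
        have h1 : (x (some (Sum.inr i))).1 ∈ K e := (x (some (Sum.inr i))).2
        exact (hM _ _).1 h1
      have ha1 : a.Monic := monic_prod_of_monic _ _ fun i _ => (hx1 i).1
      have hb1 : b.Monic := monic_prod_of_monic _ _ fun i _ => (hx2 i).1
      have ha2 : a.natDegree = N * d := by
        rw [ha, natDegree_prod_of_monic _ _ fun i _ => (hx1 i).1]
        simp [(hx1 _).2.1]
      have hb2 : b.natDegree = s * e := by
        rw [hb, natDegree_prod_of_monic _ _ fun i _ => (hx2 i).1]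
        simp [(hx2 _).2.1]
      have ha3 : IsCoprime a (α * β) := IsCoprime.prod_left fun i _ => (hx1 i).2.2
      have hb3 : IsCoprime b (α * β) := IsCoprime.prod_left fun i _ => (hx2 i).2.2
      have hdeg1 : (α * a).natDegree = L := by
        rw [hα.natDegree_mul ha1, ha2]
      have hdeg2 : (β * b).natDegree < (α * a).natDegree := by
        rw [hdeg1, hβ.natDegree_mul hb1, hb2, he, Nat.mul_sub]
        have : s * j ≤ s * ((s + 2) * d) := Nat.mul_le_mul_left _ hdj
        have e3 : s * (s + 2) * d = s * ((s + 2) * d) := by ring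
        omega
      have hmem : α * a + β * b ∈ K L := by
        rw [hM]
        refine ⟨?_, ?_, ?_⟩
        · exact (hα.mul ha1).add_of_left (degree_lt_degree hdeg2)
        · rw [natDegree_add_eq_left_of_natDegree_lt hdeg2, hdeg1]
        · refine IsCoprime.mul_right ?_ ?_
          · have h1 : IsCoprime (β * b) α :=
              IsCoprime.mul_left hαβ.symm (hb3.of_mul_right_left)
            have h2 := h1.add_mul_left_left a
            rwa [add_comm] at h2
          · have h1 : IsCoprime (α * a) β :=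
              IsCoprime.mul_left hαβ (ha3.of_mul_right_right)
            exact h1.add_mul_left_left b
      -- the block decomposition
      let Ψ : (∀ i : Fin N ⊕ Fin s, Pt K N s d e L (some i)) × Pt K N s d e L none ≃
          ∀ i, Pt K N s d e L i :=
        (Equiv.prodComm _ _).trans (Equiv.piOptionEquivProd (β := fun i => Pt K N s d e L i)).symm
      have hΨ : ∀ z y z' y', mix S (Ψ (z, y)) (Ψ (z', y')) = Ψ (z, y') := by
        intro z y z' y'
        funext i
        unfold mix
        rcases i with _ | i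
        · rw [if_neg (by rw [hS]; simp)]; rfl
        · rw [if_pos (by rw [hS]; simp)]; rfl
      have hx : x = Ψ (fun i => x (some i), x none) := by
        funext i
        rcases i with _ | i
        · rfl
        · rfl
      rw [hx, ce_block Ψ S hΨ]
      have hW : ∀ y : Pt K N s d e L none, Wf K α β N s d e L (Ψ (fun i => x (some i), y)) =
          if y = ⟨α * a + β * b, hmem⟩ then ((K L).card : ℝ) else 0 := by
        intro y
        unfold Wf
        have e1 : ∏ i, (Ψ (fun i => x (some i), y) (some (Sum.inl i))).1 = a := rfl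
        have e2 : ∏ i, (Ψ (fun i => x (some i), y) (some (Sum.inr i))).1 = b := rfl
        have e3 : (Ψ (fun i => x (some i), y) none) = y := rfl
        rw [e1, e2, e3]
        by_cases h1 : α * a + β * b = y.1
        · rw [if_pos h1, if_pos (Subtype.ext h1.symm)]
        · rw [if_neg h1, if_neg (fun h2 => h1 (by rw [h2]))]
      simp only [hW]
      rw [Finset.sum_ite_eq' Finset.univ (⟨α * a + β * b, hmem⟩ : Pt K N s d e L none)]
      rw [if_pos (Finset.mem_univ _)]
      have hcN : Fintype.card (Pt K N s d e L none) = (K L).card := Fintype.card_coe _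
      rw [hcN]
      exact div_self (by exact_mod_cast hCc.ne')
    have : (fun x => |ce S (Wf K α β N s d e L) x - 1|) = fun _ => (0 : ℝ) := by
      funext x; rw [key x]; simp
    rw [this]
    unfold av
    simp [hε.le]

end Pool.Agent.T9h71.GF
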